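import Pool.Agent.K1H9.SL.Pad

set_option autoImplicit false

/-!
# Neither Borel nor analytic intermediate normal subgroups need exist

`SL₂(ℤ_p)` is an uncountable, compact, metrizable, non-archimedean group, all of whose (abstract)
normal subgroups are finite or of finite index.
-/

namespace Pool.Agent.Results.MP_847604_al.SLTwoPadic

open Matrix Pool.Agent.K1H9.SL MeasureTheory

variable {p : ℕ} [Fact p.Prime]

theorem compactSpace_SL : CompactSpace (Matrix.SpecialLinearGroup (Fin 2) ℤ_[p]) := by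
  have h := (Matrix.SpecialLinearGroup.isClosedEmbedding_val (n := Fin 2) (R := ℤ_[p]))
  have : CompactSpace (Matrix (Fin 2) (Fin 2) ℤ_[p]) :=
    inferInstanceAs (CompactSpace (Fin 2 → Fin 2 → ℤ_[p]))
  exact h.compactSpace

theorem metrizableSpace_SL :
    TopologicalSpace.MetrizableSpace (Matrix.SpecialLinearGroup (Fin 2) ℤ_[p]) := by
  have h := (Matrix.SpecialLinearGroup.isClosedEmbedding_val (n := Fin 2) (R := ℤ_[p]))
  have : TopologicalSpace.MetrizableSpace (Matrix (Fin 2) (Fin 2) ℤ_[p]) :=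
    inferInstanceAs (TopologicalSpace.MetrizableSpace (Fin 2 → Fin 2 → ℤ_[p]))
  exact h.isEmbedding.metrizableSpace

theorem totallyDisconnectedSpace_SL :
    TotallyDisconnectedSpace (Matrix.SpecialLinearGroup (Fin 2) ℤ_[p]) := by
  have h := (Matrix.SpecialLinearGroup.isClosedEmbedding_val (n := Fin 2) (R := ℤ_[p]))
  have : TotallyDisconnectedSpace (Matrix (Fin 2) (Fin 2) ℤ_[p]) :=
    inferInstanceAs (TotallyDisconnectedSpace (Fin 2 → Fin 2 → ℤ_[p]))
  exact h.isEmbedding.isTotallyDisconnected_range.mp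
    (isTotallyDisconnected_of_totallyDisconnectedSpace _) |> fun h => h

theorem nonarchimedeanGroup_SL :
    NonarchimedeanGroup (Matrix.SpecialLinearGroup (Fin 2) ℤ_[p]) := by
  have h1 := compactSpace_SL (p := p)
  have h2 := totallyDisconnectedSpace_SL (p := p)
  refine ⟨?_⟩
  intro U hU
  obtain ⟨V, hVU, hV, h1V⟩ := mem_nhds_iff.mp hU
  obtain ⟨H, hH⟩ := ProfiniteGrp.exist_openNormalSubgroup_sub_open_nhds_of_one hV h1V
  exact ⟨H.toOpenSubgroup, fun x hx => hVU (hH hx)⟩

theorem uncountable_SL : Uncountable (Matrix.SpecialLinearGroup (Fin 2) ℤ_[p]) := by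
  have h : Uncountable ℤ_[p] := by
    rw [← not_countable_iff]
    intro hc
    have h0 : ({x : ℚ_[p] | ‖x‖ < 1} : Set ℚ_[p]).Countable := by
      have h1 : ({x : ℚ_[p] | ‖x‖ < 1} : Set ℚ_[p]) ⊆ Set.range (fun y : ℤ_[p] => (y : ℚ_[p])) := by
        intro x hx
        exact ⟨⟨x, le_of_lt hx⟩, rfl⟩
      exact (Set.countable_range _).mono h1
    have h2 : IsOpen ({x : ℚ_[p] | ‖x‖ < 1} : Set ℚ_[p]) := isOpen_lt continuous_norm continuous_const
    have h3 := continuum_le_cardinal_of_isOpen ℚ_[p] h2 ⟨0, by simp⟩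
    have h4 : Cardinal.mk ({x : ℚ_[p] | ‖x‖ < 1} : Set ℚ_[p]) ≤ Cardinal.aleph0 :=
      Cardinal.mk_le_aleph0_iff.mpr h0
    exact absurd (h3.trans h4) (not_le.mpr Cardinal.aleph0_lt_continuum)
  have hinj : Function.Injective (E12 : ℤ_[p] → SL ℤ_[p]) := by
    intro x y hxy
    have := congrArg (fun g : SL ℤ_[p] => g 0 1) hxy
    simpa using this
  exact hinj.uncountable

/-- **Main result.** -/
theorem result :
    (∀ (p : ℕ) [Fact p.Prime],
      (CompactSpace (Matrix.SpecialLinearGroup (Fin 2) ℤ_[p]) ∧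
        TopologicalSpace.MetrizableSpace (Matrix.SpecialLinearGroup (Fin 2) ℤ_[p]) ∧
        NonarchimedeanGroup (Matrix.SpecialLinearGroup (Fin 2) ℤ_[p]) ∧
        Uncountable (Matrix.SpecialLinearGroup (Fin 2) ℤ_[p])) ∧
      ∀ N : Subgroup (Matrix.SpecialLinearGroup (Fin 2) ℤ_[p]), N.Normal →
        (Finite N ∨ N.FiniteIndex)) ∧
    (¬ ∀ (G : Type) [Group G] [TopologicalSpace G] [NonarchimedeanGroup G] [CompactSpace G]
        [T2Space G] [TopologicalSpace.MetrizableSpace G] [Uncountable G],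
        ∃ N : Subgroup G, N.Normal ∧ @MeasurableSet G (borel G) (N : Set G) ∧
          Uncountable N ∧ Uncountable (G ⧸ N)) ∧
    (¬ ∀ (G : Type) [Group G] [TopologicalSpace G] [NonarchimedeanGroup G] [CompactSpace G]
        [T2Space G] [TopologicalSpace.MetrizableSpace G] [Uncountable G],
        ∃ N : Subgroup G, N.Normal ∧ AnalyticSet (N : Set G) ∧
          Uncountable N ∧ Uncountable (G ⧸ N)) := by
  refine ⟨?_, ?_, ?_⟩
  · intro p hp
    exact ⟨⟨compactSpace_SL, metrizableSpace_SL, nonarchimedeanGroup_SL, uncountable_SL⟩,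
      fun N hN => finite_or_finiteIndex N hN⟩
  all_goals
    intro H
    have hp : Fact (Nat.Prime 2) := ⟨Nat.prime_two⟩
    have h1 := compactSpace_SL (p := 2)
    have h2 := metrizableSpace_SL (p := 2)
    have h3 := nonarchimedeanGroup_SL (p := 2)
    have h4 := uncountable_SL (p := 2)
    obtain ⟨N, hN, -, hN1, hN2⟩ := H (Matrix.SpecialLinearGroup (Fin 2) ℤ_[2])
    rcases finite_or_finiteIndex N hN with h5 | h5
    · exact not_countable (α := N) inferInstance
    · have : Finite (Matrix.SpecialLinearGroup (Fin 2) ℤ_[2] ⧸ N) := inferInstance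
      exact not_countable (α := Matrix.SpecialLinearGroup (Fin 2) ℤ_[2] ⧸ N) inferInstance

end Pool.Agent.Results.MP_847604_al.SLTwoPadic
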